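import Mathlib
import Pool.Agent.Helper18.UW.GoalsA
import Pool.Agent.Helper43.Gm.E
import Pool.Agent.Helper43.Gm.C
import Pool.Agent.Helper53.Gm.B

/-!
# UW packet E2w: packing, two bounds (adapted from `Pool/Agent/Helper43/Gm/E.lean`)
-/

set_option autoImplicit false

namespace Pool.Agent.Helper7.UW

open Finset Pool.Agent.Lead.Sh
open Pool.Agent.Helper43.Gm
open Pool.Agent.Helper43.Gm.PkD (od nn_eq SS_eq od_succ od_le od_congr x_zero mono_le)
open Pool.Agent.Helper43.Gm.PkE
open Pool.Agent.Helper18.UW (GoalD2 GoalE2w)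

theorem goalE2w_aux (hB : GoalB) (hC : GoalC) (hD : GoalD2) : GoalE2w := by
  intro M m0 R J0 J c0 ν ℓ hm1 hmM h1 hM hc0 hMJ hJJ hJR hd hg1 hg2 hend harea N hsum
  have hM1 : 1 ≤ M := hm1.trans hmM
  have hJ0 : 0 < J := by omega
  obtain ⟨κ, x, hR, hlh, -, hpot⟩ := hD M m0 J J0 c0 ν ℓ ∅ hm1 hmM h1 hM hc0 hMJ hJJ
    (fun z hz => absurd hz (notMem_empty z))
    (fun y hy => hd y (by omega)) hg1 (fun y hy1 hy2 _ => hg2 y hy1 hy2) harea
  have hcl : cl J ∅ = 0 := by unfold cl; simp
  rw [card_empty, hcl, mul_zero, mul_zero, add_zero] at hpot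
  have hSS : ∀ y < J, SS κ x ν y = ℓ y := by
    intro y hy
    have h2 : ∑ y ∈ range J, (SS κ x ν y - ℓ y) = 0 := by omega
    rw [sum_eq_zero_iff] at h2
    have h3 := h2 y (mem_range.2 hy)
    have := (hlh y hy).1
    omega
  set K := KK κ x J with hK
  have hE := run_ext hR hJ0 (R + M)
  obtain ⟨π, ε, hpri⟩ := hB M R ν _ _ (run_restrict hE (by omega : R ≤ R + M))
  have htot : ∀ c < K, ∑ y ∈ range (R + M), nn (ek κ x J) (ex x J) ν c y =
      (ν c + 1).choose 2 := fun c hc =>
    hC M (R + M) ν _ _ hE c J (by omega) (by rw [ek_ge le_rfl]; exact hc) (by omega)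
  have hKrow : ∀ y < J, ∑ c ∈ range K, nn (ek κ x J) (ex x J) ν c y = ℓ y := by
    intro y hy
    rw [sum_congr rfl (fun c _ => nn_ext hy), sum_eq_SS K (fun c hc => lt_KK hR hy hc)]
    exact hSS y hy
  have hKtot : ∑ c ∈ range K, (ν c + 1).choose 2 = ∑ y ∈ range J, ℓ y +
      ∑ t ∈ range (R + M - J), ∑ c ∈ range K, nn (ek κ x J) (ex x J) ν c (J + t) := by
    rw [← sum_congr rfl (fun c hc => htot c (mem_range.1 hc)), sum_comm,
      show R + M = J + (R + M - J) by omega, sum_range_add,
      show J + (R + M - J) - J = R + M - J by omega]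
    congr 1
    exact sum_congr rfl (fun y hy => hKrow y (mem_range.1 hy))
  have hNK : N ≤ K := le_of_sum h1 (by omega)
  have hsub : ∀ y, ∑ c ∈ range N, nn (ek κ x J) (ex x J) ν c y ≤
      ∑ c ∈ range K, nn (ek κ x J) (ex x J) ν c y := fun y =>
    sum_le_sum_of_subset (range_mono hNK)
  have hNtot : ∑ y ∈ range (R + M), ∑ c ∈ range N, nn (ek κ x J) (ex x J) ν c y =
      ∑ c ∈ range N, (ν c + 1).choose 2 := by
    rw [sum_comm]
    exact sum_congr rfl (fun c hc => htot c (by rw [mem_range] at hc; omega))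
  refine ⟨nn (ek κ x J) (ex x J) ν, π, ε, hpri N, ?_⟩
  have hκJ : ek κ x J (J - 1) = κ (J - 1) := ek_lt (by omega)
  rcases Nat.lt_or_ge (κ (J - 1)) N with hN | hN
  · -- the last point is used as well
    have hNK' : N = K := by
      have : K ≤ κ (J - 1) + 1 := by
        rw [hK, KK]; split_ifs <;> omega
      omega
    have hzero : ∀ t < R + M - J, ∑ c ∈ range K, nn (ek κ x J) (ex x J) ν c (J + t) = 0 := by
      have h2 : ∑ t ∈ range (R + M - J), ∑ c ∈ range K, nn (ek κ x J) (ex x J) ν c (J + t) =
          0 := by rw [hNK'] at hsum; omega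
      intro t ht
      exact sum_eq_zero_iff.1 h2 t (mem_range.2 ht)
    rw [hNK'] at hNtot ⊢
    refine ⟨?_, ?_⟩
    · intro y hy
      rcases Nat.lt_or_ge y J with h2 | h2
      · exact (hKrow y h2).le
      · have := hzero (y - J) (by omega)
        rw [show J + (y - J) = y by omega] at this
        omega
    · rw [← hNtot, sum_range_add _ R M]
      have : ∑ t ∈ range M, ∑ c ∈ range K, nn (ek κ x J) (ex x J) ν c (R + t) = 0 := by
        apply sum_eq_zero
        intro t ht
        rw [mem_range] at ht
        have := hzero (R + t - J) (by omega)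
        rw [show J + (R + t - J) = R + t by omega] at this
        exact this
      omega
  · -- all the points are old at the row `J - 1`
    have hold : ∀ y, J - 1 ≤ y → N ≤ ek κ x J y := by
      intro y hy
      rcases Nat.lt_or_ge y J with h2 | h2
      · rw [show y = J - 1 by omega, hκJ]; exact hN
      · rw [ek_ge h2]; exact hNK
    have hstep : ∀ y, J - 1 ≤ y → ∑ c ∈ range N, nn (ek κ x J) (ex x J) ν c (y + 1) ≤
        ∑ c ∈ range N, nn (ek κ x J) (ex x J) ν c y - 1 := fun y hy =>
      old_drop (hold y hy) (hold (y + 1) (by omega))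
    have hrow : ∀ y < R, ∑ c ∈ range N, nn (ek κ x J) (ex x J) ν c y ≤ ℓ y := by
      have h2 : ∀ t, J - 1 + t < R →
          ∑ c ∈ range N, nn (ek κ x J) (ex x J) ν c (J - 1 + t) ≤ ℓ (J - 1 + t) := by
        intro t
        induction t with
        | zero =>
          intro _
          rw [add_zero]
          exact (hsub _).trans (hKrow _ (by omega)).le
        | succ t ih =>
          intro h
          have h3 := ih (by omega)
          have h4 := hstep (J - 1 + t) (by omega)
          have h5 := hd (J - 1 + t) (by omega)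
          rw [show J - 1 + (t + 1) = J - 1 + t + 1 by omega]
          omega
      intro y hy
      rcases Nat.lt_or_ge y J with h3 | h3
      · exact (hsub _).trans (hKrow _ h3).le
      · have := h2 (y - (J - 1)) (by omega)
        rw [show J - 1 + (y - (J - 1)) = y by omega] at this
        exact this
    refine ⟨hrow, ?_⟩
    rw [← hNtot, sum_range_add _ R M]
    have h2 : ∀ t, ∑ c ∈ range N, nn (ek κ x J) (ex x J) ν c (R + t) = 0 := by
      intro t
      induction t with
      | zero =>
        have h3 := hstep (R - 1) (by omega)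
        have h4 := hrow (R - 1) (by omega)
        rw [show R - 1 + 1 = R by omega] at h3
        rw [add_zero]
        omega
      | succ t ih =>
        have h3 := hstep (R + t) (by omega)
        rw [show R + (t + 1) = R + t + 1 by omega]
        omega
    rw [sum_eq_zero (fun t _ => h2 t), add_zero]

theorem goalE2w (hD : GoalD2) : GoalE2w :=
  goalE2w_aux PkB.goalB PkC.goalC hD

end Pool.Agent.Helper7.UW
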